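import Pool.Agent.Helper28.T3E.StF

/-!
# Project T3E, module LBEOF: lower bound from the triangular system (model: `M_LBof` of W3)
-/

set_option autoImplicit false

namespace Pool.Agent.Helper2.T3E

open Pool.Agent.Helper28.T3E
open Pool.Agent.Helper78.W3 Pool.Agent.Helper14.W3 Pool.Agent.Helper14.T3
open Pool.Agent.Helper14.CV (Homog EqC act Tl)

private theorem unit_det {ι : Type} [Fintype ι] [DecidableEq ι] (k1 k2 : ι → ℕ)
    (hinj : ∀ t u, k1 t = k1 u → k2 t = k2 u → t = u) (M : Matrix ι ι ℤ)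
    (hd : ∀ t, ((M t t : ℤ) : ZMod 3) ≠ 0)
    (hM : ∀ t u, ((M t u : ℤ) : ZMod 3) ≠ 0 → k1 u < k1 t ∨ (k1 u = k1 t ∧ k2 u ≤ k2 t)) :
    M.det ≠ 0 := by
  have : Fact (Nat.Prime 3) := ⟨Nat.prime_three⟩
  intro h0
  have h1 : (M.map (fun x : ℤ => (x : ZMod 3))).det = 0 := by
    have := Int.cast_det (R := ZMod 3) M
    rw [h0] at this
    rw [← this]
    simp
  obtain ⟨v, hv, hz⟩ := Matrix.exists_vecMul_eq_zero_iff.2 h1
  have hne : (Finset.univ.filter fun t => v t ≠ 0).Nonempty := by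
    by_contra hc
    rw [Finset.not_nonempty_iff_eq_empty, Finset.filter_eq_empty_iff] at hc
    apply hv
    funext t
    simpa using hc (Finset.mem_univ t)
  obtain ⟨t0, ht0, hmax⟩ := Finset.exists_max_image _ (fun t => (toLex (k1 t, k2 t) : ℕ ×ₗ ℕ)) hne
  have hz0 := congrFun hz t0
  rw [Matrix.vecMul, dotProduct] at hz0
  rw [Finset.sum_eq_single t0] at hz0
  · simp only [Matrix.map_apply, Pi.zero_apply] at hz0
    rcases mul_eq_zero.1 hz0 with h | h
    · exact (Finset.mem_filter.1 ht0).2 h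
    · exact hd t0 h
  · intro t _ htn
    by_cases hvt : v t = 0
    · rw [hvt, zero_mul]
    · by_cases hm : ((M t t0 : ℤ) : ZMod 3) = 0
      · simp only [Matrix.map_apply, hm, mul_zero]
      · exfalso
        have h2 := hmax t (Finset.mem_filter.2 ⟨Finset.mem_univ _, hvt⟩)
        simp only [Prod.Lex.le_iff, ofLex_toLex] at h2
        have h3 := hM t t0 hm
        apply htn
        apply hinj
        · omega
        · omega
  · intro h
    exact absurd (Finset.mem_univ _) h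

private theorem core (D r s N n : ℕ) (hD : OkE D) (hr : 1 ≤ r) (hs : 1 ≤ s) (I : Finset (ℕ × ℕ))
    (hI : ∀ t ∈ I, t.1 / 2 + 1 + 3 * t.2 + 1 < 3 ^ r ∧ t.1 / 2 + 1 + t.2 < 3 ^ s) (hN : I.card = N)
    (hn : r + 1 + (s + 1) = n) (hTri : StTR) (hLif : StLI) (hUnb : StUNBE) :
    ∃ G : Fin N → (ℤ → ℤ → ℂ), (∀ k, Sym3 0 n (G k)) ∧
      LinearIndependent ℂ (fun k => evT D (G k)) := by
  have hD0 : D ≠ 0 := by
    have := hD.1
    omega
  have h1 : ∀ t : I, ∃ (G : ℤ → ℤ → ℂ) (m : ℕ → ℕ → ℤ), Sym3 0 n G ∧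
      (∀ i j, evT D G i j = ((m i j : ℤ) : ℂ)) ∧ (((m t.1.1 t.1.2 : ℤ) : ZMod 3) ≠ 0) ∧
      ∀ i j, (((m i j : ℤ) : ZMod 3) ≠ 0 →
        (i + 4 * j < t.1.1 + 4 * t.1.2 ∨
          (i + 4 * j = t.1.1 + 4 * t.1.2 ∧ i / 2 + j ≤ t.1.1 / 2 + t.1.2))) := by
    intro t
    obtain ⟨ha, hb⟩ := hI t.1 t.2
    obtain ⟨g, hg, hg1, hg2⟩ := hTri D r s t.1.1 t.1.2 hD hr hs ha hb
    obtain ⟨G, hG, _, hGe⟩ := hLif r s g hg
    obtain ⟨hS, hE⟩ := hUnb D (r + 1) (s + 1) G hD0 hG
    refine ⟨_, fun i j => evTb D (3 ^ (r + 1)) G i j, hn ▸ hS, hE, ?_, ?_⟩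
    · show ((evTb D (3 ^ (r + 1)) G t.1.1 t.1.2 : ℤ) : ZMod 3) ≠ 0
      rw [hGe _ _ _ hD0]
      exact hg1
    · intro i j hij
      apply hg2
      rw [← hGe _ _ _ hD0]
      exact hij
  choose G m hS hE hd hM using h1
  let M : Matrix I I ℤ := fun t u => m t u.1.1 u.1.2
  have hdet : M.det ≠ 0 := by
    refine unit_det (fun t : I => t.1.1 + 4 * t.1.2) (fun t : I => t.1.1 / 2 + t.1.2) ?_ M
      (fun t => hd t) (fun t u htu => hM t _ _ htu)
    intro t u h2 h3
    apply Subtype.ext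
    apply Prod.ext
    · omega
    · omega
  have hdetC : (M.map (fun x : ℤ => (x : ℂ))).det ≠ 0 := by
    have := Int.cast_det (R := ℂ) M
    rw [← this]
    exact_mod_cast hdet
  have hrow := Matrix.linearIndependent_rows_of_det_ne_zero hdetC
  let π : (ℕ → ℕ → ℂ) →ₗ[ℂ] (I → ℂ) :=
    { toFun := fun F u => F u.1.1 u.1.2
      map_add' := fun _ _ => rfl
      map_smul' := fun _ _ => rfl }
  have hli : LinearIndependent ℂ (fun t : I => evT D (G t)) := by
    apply LinearIndependent.of_comp π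
    have he : (π ∘ fun t : I => evT D (G t)) = (M.map (fun x : ℤ => (x : ℂ))).row := by
      funext t u
      exact hE t u.1.1 u.1.2
    rw [he]
    exact hrow
  let e : Fin N ≃ I := (I.equivFinOfCardEq hN).symm
  exact ⟨fun k => G (e k), fun k => hS (e k), hli.comp e e.injective⟩

/-- Module LBEOF. -/
theorem hLBEOF : StLBEOF := by
  intro hTri hLif hUnb hCnt D n hD hn
  rcases Nat.even_or_odd' n with ⟨k, hk | hk⟩
  · subst hk
    refine core D (k - 1) (k - 1) _ _ hD (by omega) (by omega) _ ?_ (hCnt.1 k (by omega)) (by omega)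
      hTri hLif hUnb
    intro t ht
    exact (Finset.mem_filter.1 ht).2
  · subst hk
    refine core D k (k - 1) _ _ hD (by omega) (by omega) _ ?_ (hCnt.2 k (by omega)) (by omega)
      hTri hLif hUnb
    intro t ht
    exact (Finset.mem_filter.1 ht).2

end Pool.Agent.Helper2.T3E
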