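import Pool.Agent.Helper28.T3E.StF

/-!
Module SGNE of project T3E: signs of the twisted path under W and star, even characters (`D = 5` modulo `12`, squarefree).
Model: the module `M_SgnD` of project TT.
-/

set_option autoImplicit false

namespace Pool.Agent.Helper2.T3E

open Pool.Agent.Helper28.T3E
open Pool.Agent.Helper78.W3 Pool.Agent.Helper14.W3 Pool.Agent.Helper14.T3
open Pool.Agent.Helper14.CV (Homog EqC act act_act Tl)
open Pool.Agent.Helper76.TX (eX eX_congr)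

private theorem iter_comm {n : ℕ} {a b c d : ℤ} (T : (ℤ → ℤ → ℂ) → (ℤ → ℤ → ℂ))
    (hT : ∀ {G H : ℤ → ℤ → ℂ}, EqC G H → ∀ i : ℕ, EqC (T^[i] G) (T^[i] H))
    (hS : ∀ G : ℤ → ℤ → ℂ, Sym3 0 n G → Sym3 0 n (T G))
    (hC : ∀ G : ℤ → ℤ → ℂ, Sym3 0 n G → EqC (T (act a b c d G)) (act a b c d (T G)))
    (i : ℕ) : ∀ G : ℤ → ℤ → ℂ, Sym3 0 n G →
      EqC (T^[i] (act a b c d G)) (act a b c d (T^[i] G)) ∧ Sym3 0 n (T^[i] G) := by
  induction i with
  | zero => intro G hG; exact ⟨EqC.refl _, hG⟩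
  | succ i ih =>
    intro G hG
    rw [Function.iterate_succ_apply, Function.iterate_succ_apply]
    have h1 := ih (T G) (hS G hG)
    exact ⟨(hT (hC G hG) i).trans h1.1, h1.2⟩

private theorem key {n : ℕ} {a b c d : ℤ} (hHkS : S3HkS)
    (hC2 : ∀ G : ℤ → ℤ → ℂ, Sym3 0 n G → EqC (Tl 2 1 (act a b c d G)) (act a b c d (Tl 2 1 G)))
    (hCB : ∀ G : ℤ → ℤ → ℂ, Sym3 0 n G → EqC (Bo 1 (act a b c d G)) (act a b c d (Bo 1 G)))
    (G : ℤ → ℤ → ℂ) (hG : Sym3 0 n G) (i j : ℕ) :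
    Sym3 0 n ((Bo 1)^[j] ((Tl 2 1)^[i] G)) ∧
      EqC ((Bo 1)^[j] ((Tl 2 1)^[i] (act a b c d G)))
        (act a b c d ((Bo 1)^[j] ((Tl 2 1)^[i] G))) := by
  have h2 := iter_comm (Tl 2 1) (fun h i => h.Tl_iter (l := 2) (by norm_num) 1 i)
    (fun G hG => (hHkS ℂ inferInstance n G hG).1 2 (by norm_num) (by norm_num)) hC2 i G hG
  have hB := iter_comm (Bo 1) (fun h i => h.Bo_iter 1 i)
    (fun G hG => (hHkS ℂ inferInstance n G hG).2) hCB j _ h2.2
  exact ⟨hB.2, (h2.1.Bo_iter 1 j).trans hB.1⟩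

/-- `H p l` depends only on `p` modulo `l`. -/
private theorem per {n l : ℕ} (hl : l ≠ 0) {H : ℤ → ℤ → ℂ} (hH : Sym3 0 n H) (p k : ℤ) :
    H (p + k * l) l = H p l := by
  obtain ⟨c, hc⟩ := hH.2 1 k 0 1 (by ring) (by simp) (dvd_zero _)
  have h1 := hc 1 0 (Or.inl one_ne_zero)
  have h2 := hc p l (Or.inr (by exact_mod_cast hl))
  simp only [act] at h1 h2
  have hc0 : c = 0 := by
    have : H 1 0 = H 1 0 + c := by simpa using h1
    simpa using this
  rw [hc0, add_zero] at h2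
  simpa using h2

private theorem per' {n l : ℕ} (hl : l ≠ 0) {H : ℤ → ℤ → ℂ} (hH : Sym3 0 n H) {p q : ℤ}
    (h : (p : ZMod l) = q) : H p l = H q l := by
  obtain ⟨k, hk⟩ := (ZMod.intCast_eq_intCast_iff_dvd_sub p q l).1 h
  have : q = p + k * l := by linarith
  rw [this, per hl hH]

/-! ### The Jacobi symbol on `ZMod D` -/

/-- The Jacobi symbol as a function on `ZMod D`. -/
private def J (D : ℕ) (x : ZMod D) : ℤ := jacobiSym (x.val : ℤ) D

private theorem J_cast (D : ℕ) [NeZero D] (a : ℤ) : J D (a : ZMod D) = jacobiSym a D := by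
  unfold J
  apply jacobiSym.mod_left'
  rw [ZMod.val_intCast, Int.emod_emod_of_dvd _ dvd_rfl]

private theorem cast_val {D : ℕ} [NeZero D] (x : ZMod D) : (((x.val : ℕ) : ℤ) : ZMod D) = x := by
  simp

private theorem J_mul {D : ℕ} [NeZero D] (x y : ZMod D) : J D (x * y) = J D x * J D y := by
  have h : x * y = (((x.val : ℤ) * (y.val : ℤ) : ℤ) : ZMod D) := by
    rw [Int.cast_mul, cast_val, cast_val]
  rw [h, J_cast, jacobiSym.mul_left]
  rfl

private theorem J_neg {D : ℕ} [NeZero D] (h4 : D % 12 = 5) (x : ZMod D) : J D (-x) = J D x := by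
  have hodd : Odd D := Nat.odd_iff.2 (by omega)
  have h : -x = ((-(x.val : ℤ) : ℤ) : ZMod D) := by
    rw [Int.cast_neg, cast_val]
  rw [h, J_cast, jacobiSym.neg _ hodd, ZMod.χ₄_nat_one_mod_four (by omega), one_mul]
  rfl

private theorem J_one {D : ℕ} [NeZero D] : J D 1 = 1 := by
  have h : (1 : ZMod D) = ((1 : ℤ) : ZMod D) := by simp
  rw [h, J_cast, jacobiSym.one_left]

private theorem J_pow {D : ℕ} [NeZero D] (x : ZMod D) (n : ℕ) : J D (x ^ n) = J D x ^ n := by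
  induction n with
  | zero => rw [pow_zero, pow_zero, J_one]
  | succ n ih => rw [pow_succ, pow_succ, J_mul, ih]

private theorem isUnit_iff {D : ℕ} [NeZero D] (x : ZMod D) :
    IsUnit x ↔ (x.val : ℤ).gcd D = 1 := by
  have h := ZMod.isUnit_iff_coprime x.val D
  rw [ZMod.natCast_zmod_val] at h
  rw [h]
  rfl

private theorem J_zero {D : ℕ} [NeZero D] {x : ZMod D} (h : ¬ IsUnit x) : J D x = 0 := by
  unfold J
  rw [jacobiSym.eq_zero_iff_not_coprime]
  exact fun h' => h ((isUnit_iff x).2 h')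

private theorem J_sq {D : ℕ} [NeZero D] {x : ZMod D} (h : IsUnit x) : J D x * J D x = 1 := by
  have := jacobiSym.sq_one ((isUnit_iff x).1 h)
  rw [sq] at this
  exact this

/-- the sum over the residues as a sum over `ZMod D` -/
private theorem sumZ {D : ℕ} [NeZero D] (f : ℤ → ℂ) :
    ∑ a ∈ Finset.range D, jacobiSym (a : ℤ) D • f a = ∑ x : ZMod D, J D x • f (x.val : ℤ) := by
  refine Finset.sum_bij (fun a _ => (a : ZMod D)) (fun _ _ => Finset.mem_univ _) ?_ ?_ ?_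
  · intro a ha b hb hab
    have := (ZMod.natCast_eq_natCast_iff' a b D).1 hab
    rwa [Nat.mod_eq_of_lt (Finset.mem_range.1 ha), Nat.mod_eq_of_lt (Finset.mem_range.1 hb)] at this
  · intro x _
    exact ⟨x.val, Finset.mem_range.2 (ZMod.val_lt x), by simp⟩
  · intro a ha
    unfold J
    rw [ZMod.val_natCast_of_lt (Finset.mem_range.1 ha)]

private theorem J_sum {D : ℕ} [NeZero D] (h0 : ∑ u ∈ Finset.range D, jacobiSym (u : ℤ) D = 0) :
    ∑ x : ZMod D, J D x = 0 := by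
  have h1 := sumZ (D := D) (fun _ : ℤ => (1 : ℂ))
  rw [← Finset.sum_smul, ← Finset.sum_smul, h0, zero_smul] at h1
  have h2 : ∑ x : ZMod D, ((J D x : ℤ) : ℂ) = 0 := by simpa using h1.symm
  exact_mod_cast h2

private theorem eXZ {D : ℕ} [NeZero D] (h0 : ∑ u ∈ Finset.range D, jacobiSym (u : ℤ) D = 0) (H : ℤ → ℤ → ℂ) :
    eX D H = ∑ x : ZMod D, J D x • H (x.val : ℤ) D := by
  unfold eX
  rw [sumZ (fun a : ℤ => H a D - H 1 0)]
  simp only [smul_sub, Finset.sum_sub_distrib, ← Finset.sum_smul]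
  rw [J_sum h0]
  simp

private theorem star_sign {n D : ℕ} [NeZero D] (h4 : D % 12 = 5)
    (h0 : ∑ u ∈ Finset.range D, jacobiSym (u : ℤ) D = 0) {H : ℤ → ℤ → ℂ}
    (hH : Sym3 0 n H) : eX D (act (-1) 0 0 1 H) = eX D H := by
  have hl0 : D ≠ 0 := NeZero.ne D
  rw [eXZ h0, eXZ h0]
  refine Fintype.sum_equiv (Equiv.neg (ZMod D)) _ _ fun x => ?_
  rw [Equiv.neg_apply, J_neg h4]
  congr 1
  simp only [act]
  have : H (-(x.val : ℤ)) D = H ((-x).val : ℤ) D := by
    apply per' hl0 hH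
    simp
  simpa using this

private theorem hom_neg {n : ℕ} {H : ℤ → ℤ → ℂ} (hH : Sym3 0 n H) : H 0 (-1) = H 0 1 := by
  have := hH.1 (-1) 0 1 (by norm_num) (Or.inr one_ne_zero)
  simpa using this

private theorem three_pow_unit {D : ℕ} (h4 : D % 12 = 5) (n : ℕ) : IsUnit ((3 : ZMod D) ^ n) := by
  apply IsUnit.pow
  have h := (ZMod.isUnit_iff_coprime 3 D).2 (by
    rw [Nat.Prime.coprime_iff_not_dvd Nat.prime_three]
    omega)
  simpa using h

/-- the involution of the residues -/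
private noncomputable def inv {D : ℕ} (n : ℕ) (x : ZMod D) : ZMod D :=
  open scoped Classical in if IsUnit x then -(3 ^ n * x)⁻¹ else x

private theorem inv_unit {D : ℕ} (n : ℕ) {x : ZMod D} (hx : IsUnit x) :
    inv n x = -(3 ^ n * x)⁻¹ := by
  unfold inv
  rw [if_pos hx]

private theorem inv_prod {D : ℕ} (h4 : D % 12 = 5) (n : ℕ) {x : ZMod D} (hx : IsUnit x) :
    (3 ^ n * x) * inv n x = -1 := by
  rw [inv_unit n hx, mul_neg, ZMod.mul_inv_of_unit _ ((three_pow_unit h4 n).mul hx)]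

private theorem isUnit_inv {D : ℕ} (h4 : D % 12 = 5) (n : ℕ) {x : ZMod D} (hx : IsUnit x) :
    IsUnit (inv n x) := by
  have h := inv_prod h4 n hx
  refine IsUnit.of_mul_eq_one (-(3 ^ n * x)) ?_
  rw [mul_neg, mul_comm, h, neg_neg]

private theorem inv_inv' {D : ℕ} (h4 : D % 12 = 5) (n : ℕ) :
    Function.Involutive (inv n : ZMod D → ZMod D) := by
  intro x
  by_cases hx : IsUnit x
  · have hy := isUnit_inv h4 n hx
    have h1 := inv_prod h4 n hx
    have h2 := inv_prod h4 n hy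
    have hu := (three_pow_unit h4 n).mul hy
    refine hu.mul_left_cancel ?_
    rw [h2, ← h1]
    ring
  · unfold inv
    rw [if_neg hx, if_neg hx]

private theorem w_val {n D : ℕ} [NeZero D] (h4 : D % 12 = 5) {H : ℤ → ℤ → ℂ} (hH : Sym3 0 n H)
    {x : ZMod D} (hx : IsUnit x) :
    H (-(D : ℤ)) (3 ^ n * (x.val : ℤ)) = H 1 0 + H 0 1 - H (((inv n x).val : ℕ) : ℤ) D := by
  have hl0 : D ≠ 0 := NeZero.ne D
  set y : ZMod D := inv n x with hy
  have hprod : (3 ^ n * x) * y = -1 := inv_prod h4 n hx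
  have hdvd : (D : ℤ) ∣ 3 ^ n * (x.val : ℤ) * (y.val : ℤ) + 1 := by
    rw [← ZMod.intCast_zmod_eq_zero_iff_dvd]
    push_cast
    rw [ZMod.natCast_zmod_val, ZMod.natCast_zmod_val, hprod]
    ring
  obtain ⟨k, hk⟩ := hdvd
  obtain ⟨c, hc⟩ := hH.2 (-(D : ℤ)) (y.val : ℤ) (3 ^ n * (x.val : ℤ)) (-k) (by linarith) (by simp)
    (Dvd.intro _ rfl)
  have e1 := hc 1 0 (Or.inl one_ne_zero)
  have e2 := hc (y.val : ℤ) D (Or.inr (by exact_mod_cast hl0))
  simp only [act] at e1 e2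
  have e1' : H (-(D : ℤ)) (3 ^ n * (x.val : ℤ)) = H 1 0 + c := by simpa using e1
  have a1 : -(D : ℤ) * (y.val : ℤ) + (y.val : ℤ) * D = 0 := by ring
  have a2 : 3 ^ n * (x.val : ℤ) * (y.val : ℤ) + -k * D = -1 := by linarith
  rw [a1, a2, hom_neg hH] at e2
  rw [e1', e2]
  ring

private theorem w_sign {n D : ℕ} [NeZero D] (h4 : D % 12 = 5)
    (h0 : ∑ u ∈ Finset.range D, jacobiSym (u : ℤ) D = 0) {H : ℤ → ℤ → ℂ}
    (hH : Sym3 0 n H) :
    eX D (act 0 (-1) (3 ^ n) 0 H) = -((((jacobiSym 3 D : ℤ) ^ n : ℤ)) • eX D H) := by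
  have hl0 : D ≠ 0 := NeZero.ne D
  rw [eXZ h0, eXZ h0]
  have hval : ∀ x : ZMod D, J D x • act 0 (-1) (3 ^ n) 0 H (x.val : ℤ) D =
      J D x • (H 1 0 + H 0 1) - J D x • H (((inv n x).val : ℕ) : ℤ) D := by
    intro x
    by_cases hx : IsUnit x
    · rw [← smul_sub, ← w_val h4 hH hx]
      simp only [act]
      congr 2
      · ring
      · ring
    · rw [J_zero hx]; simp
  rw [Finset.sum_congr rfl fun x _ => hval x, Finset.sum_sub_distrib, ← Finset.sum_smul,
    J_sum h0, zero_smul, zero_sub, Finset.smul_sum]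
  congr 1
  refine Fintype.sum_equiv (Function.Involutive.toPerm (inv n) (inv_inv' h4 n)) _ _ fun x => ?_
  have e3 : Function.Involutive.toPerm (inv n) (inv_inv' h4 n) x = inv n x := rfl
  rw [e3]
  by_cases hx : IsUnit x
  · have hj : (jacobiSym 3 D : ℤ) = J D 3 := by
      have h2 : (3 : ZMod D) = ((3 : ℤ) : ZMod D) := by norm_cast
      rw [h2, J_cast]
    rw [smul_smul, hj]
    congr 1
    have h1 := congrArg (J D) (inv_prod h4 n hx)
    rw [J_mul, J_mul, J_pow, J_neg h4, J_one] at h1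
    have h2 := J_sq hx
    have h3 : J D 3 ^ n * J D (inv n x) = (J D x * J D x) * (J D 3 ^ n * J D (inv n x)) := by
      rw [h2, one_mul]
    rw [h3]
    linear_combination (-(J D x)) * h1
  · have hnot : inv n x = x := by unfold inv; rw [if_neg hx]
    rw [hnot, J_zero hx]
    simp

/-- Module SGNE. -/
theorem hSGNE : StSGNE := by
  intro hkS hkW hkT hchs D n G hD _ hG
  have h12 : D % 12 = 5 := hD.2.2.1
  obtain ⟨_, h0, _, h3, _⟩ := hchs D hD.1 hD.2.1 h12
  have : NeZero D := ⟨by rintro rfl; simp at h12⟩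
  have hl0 : D ≠ 0 := NeZero.ne D
  constructor
  · funext i j
    obtain ⟨hS, hE⟩ := key hkS
      (fun G hG => (hkW ℂ inferInstance n G hG).1 2 (by norm_num) (by norm_num))
      (fun G hG => (hkW ℂ inferInstance n G hG).2) G hG i j
    rw [evT_apply, eX_congr hl0 hE, w_sign h12 h0 hS, h3]
    rfl
  · funext i j
    obtain ⟨hS, hE⟩ := key hkS
      (fun G hG => (hkT ℂ inferInstance n G hG).1 2 (by norm_num) (by norm_num))
      (fun G hG => (hkT ℂ inferInstance n G hG).2) G hG i j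
    rw [evT_apply, eX_congr hl0 hE, star_sign h12 h0 hS]
    rfl

end Pool.Agent.Helper2.T3E
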